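import Pool.Agent.H537.MM.FinM2

/-!
# The number of the prime points of `n, a_1 n + 1, ..., a_s n + 1` is not uniformly asymptotic to the expected number

For an admissible set `A = {a_1 < ... < a_s}` Hardy and Littlewood expect
`N_A(x) ∼ 𝔖(A) x / (log x ∏ log (a_i x))`. We show that this is false for many `A` if `x` is only a power of the
logarithm of `max A`: for all `s ≥ 1`, `s < B₁ ≤ B₂` and `ε > 0` there is an `η > 0` such that for all large `T` and
EVERY integer `x` between `(log T) ^ B₁` and `(log T) ^ B₂` at least `T ^ (s - ε)` of the admissible sets `A` with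
elements between `T` and `3 ^ s T` have more than `(1 + η)` times the expected number, and as many have less than
`(1 - η)` times the expected number. (`s < B₁` is the natural range: for `x < (log T) ^ s` the expected number is less
than `1`.) So the asymptotic formula and the lower bound of the problem, with the constant of Hardy and Littlewood,
can be uniform in `A` at most for `x` beyond all powers of `log max A`.

For `s = 1` the statement says that the number of the primes `n ≤ x` with `a n + 1` prime is irregular for many `a` up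
to `exp (x ^ (1 / B))`, `B > 1`.

The proof is a matrix of Maier in the direction of the multipliers. Its columns belong to the primes `n ≤ x`, its rows to
the vectors `(a_1, ..., a_s)` in a class modulo `W = ∏_{p ≤ z} p`, `z = x ^ (1 / K)`: all `a_i` are `0` modulo `W`, up to
the residues of `a_1` modulo the primes `x ^ (1 / (K + 1)) < p ≤ z`, where `a_1 = - 1 / r`. The primes of the column
`n` are primes in classes modulo `W n` (prime number theorem in progressions to the smooth modulus `W n`, without the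
exceptional prime), the numbers `a_1 n + 1` are coprime to `W` if `n - r` is free of the primes of the sieve,
and the parity of `K` decides whether this happens too often or too seldom for a good shift `r`. The singular series of the
rows is constant up to `1 + o(1)` on average.
-/

set_option autoImplicit false

open Finset Filter Topology

namespace Pool.Agent.Results.MP_bca3e5_nt.NonuniformMultipliers

/-- no prime divides `n ∏ (a_i n + 1)` for all `n ≥ 1` -/
def Admissible {s : ℕ} (a : Fin s → ℕ) : Prop :=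
  ∀ p : ℕ, p.Prime → ∃ n : ℕ, 1 ≤ n ∧ ¬ p ∣ n * ∏ i, (a i * n + 1)

/-- the number of the primes `n ≤ x` for which all `a_i n + 1` are prime -/
def count {s : ℕ} (a : Fin s → ℕ) (x : ℕ) : ℕ :=
  ((Icc 1 x).filter fun n : ℕ => n.Prime ∧ ∀ i, (a i * n + 1).Prime).card

/-- the number of the residues `n` modulo `p` with `p ∣ n ∏ (a_i n + 1)` -/
def zeros {s : ℕ} (a : Fin s → ℕ) (p : ℕ) : ℕ :=
  ((range p).filter fun n : ℕ => p ∣ n * ∏ i, (a i * n + 1)).card

/-- the product over the primes `p ≤ y` of the factors of the singular series -/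
noncomputable def singularProduct {s : ℕ} (a : Fin s → ℕ) (y : ℕ) : ℝ :=
  ∏ p ∈ (Icc 1 y).filter Nat.Prime, (1 - (zeros a p : ℝ) / p) / (1 - 1 / (p : ℝ)) ^ (s + 1)

/-- the number expected by Hardy and Littlewood, where `σ` is the value of the singular series -/
noncomputable def expected {s : ℕ} (σ : ℝ) (a : Fin s → ℕ) (x : ℕ) : ℝ :=
  σ * ((x : ℝ) / (Real.log x * ∏ i, Real.log (a i * x)))

theorem result (s : ℕ) (hs : 1 ≤ s) (B₁ B₂ ε : ℝ) (hB₁ : (s : ℝ) < B₁) (hB₂ : B₁ ≤ B₂) (hε : 0 < ε) :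
    ∃ η : ℝ, 0 < η ∧ ∀ᶠ T : ℕ in atTop, ∀ x : ℕ, Real.log T ^ B₁ ≤ x → (x : ℝ) ≤ Real.log T ^ B₂ →
      ∀ θ : ℝ, θ = 1 ∨ θ = -1 →
        ∃ S : Finset (Fin s → ℕ), (T : ℝ) ^ ((s : ℝ) - ε) ≤ S.card ∧
          ∀ a ∈ S, StrictMono a ∧ (∀ i, T < a i ∧ a i < 3 ^ s * T) ∧ Admissible a ∧
            ∃ σ : ℝ, 0 < σ ∧ Tendsto (singularProduct a) atTop (𝓝 σ) ∧
              η * expected σ a x ≤ θ * ((count a x : ℝ) - expected σ a x) := by
  obtain ⟨k, rfl⟩ : ∃ k, s = k + 1 := ⟨s - 1, by omega⟩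
  push_cast at hB₁ ⊢
  have hk : (0 : ℝ) ≤ k := Nat.cast_nonneg _
  have hB0 : 0 < B₁ := by linarith
  have hq : ((k : ℝ) + 1) / B₁ < 1 := by
    rw [div_lt_one hB0]
    exact hB₁
  obtain ⟨n₀, hn₀⟩ := exists_nat_gt (20 * B₂ + 1 / (1 - ((k : ℝ) + 1) / B₁) + 2)
  have hd : 0 < 1 / (1 - ((k : ℝ) + 1) / B₁) := by
    apply one_div_pos.mpr
    linarith
  have hcond : ∀ K : ℕ, n₀ ≤ K → 2 ≤ K ∧ 20 * B₂ < K ∧ 1 / (K : ℝ) + ((k : ℝ) + 1) / B₁ < 1 := by
    intro K hK
    have hKr : (n₀ : ℝ) ≤ K := by exact_mod_cast hK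
    have hK2 : (2 : ℝ) ≤ K := by linarith
    refine ⟨by exact_mod_cast hK2, by linarith, ?_⟩
    have h1 : 1 / (1 - ((k : ℝ) + 1) / B₁) < K := by linarith
    have h2 : 1 / (K : ℝ) < 1 - ((k : ℝ) + 1) / B₁ := by
      rw [div_lt_comm₀ (by linarith) (by linarith)]
      exact h1
    linarith
  have hcnt : ∀ (a : Fin (k + 1) → ℕ) (x : ℕ), Pool.Agent.H537.MM.cntN (Pool.Agent.H537.MM.PR x) a = count a x := by
    intro a x
    unfold Pool.Agent.H537.MM.cntN Pool.Agent.H537.MM.PR count
    rw [filter_filter]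
  have hadm : ∀ a : Fin (k + 1) → ℕ, (∀ p, p.Prime → Pool.Agent.H537.MM.nuA a p < p) → Admissible a := by
    intro a h p hp
    have h1 := h p hp
    unfold Pool.Agent.H537.MM.nuA at h1
    by_contra hc
    push Not at hc
    have h2 : (range p).filter (fun n => p ∣ n * ∏ i, (a i * n + 1)) = range p := by
      apply filter_true_of_mem
      intro n _
      rcases Nat.eq_zero_or_pos n with h0 | h0
      · rw [h0, zero_mul]
        exact dvd_zero p
      · exact hc n h0
    rw [h2, card_range] at h1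
    exact lt_irrefl _ h1
  obtain ⟨c1, c2, c3⟩ := hcond (2 * n₀) (by omega)
  obtain ⟨c4, c5, c6⟩ := hcond (2 * n₀ + 1) (by omega)
  obtain ⟨η₁, hη₁, h₁⟩ := Pool.Agent.H537.MM.one_parity k (2 * n₀) B₁ B₂ ε hB₁ hB₂ hε c1 c2 c3
  obtain ⟨η₂, hη₂, h₂⟩ := Pool.Agent.H537.MM.one_parity k (2 * n₀ + 1) B₁ B₂ ε hB₁ hB₂ hε c4 c5 c6
  refine ⟨min η₁ η₂, lt_min hη₁ hη₂, ?_⟩
  filter_upwards [h₁, h₂, eventually_ge_atTop 3] with T g₁ g₂ hT3
  intro x hx1 hx2 θ hθ
  have hlog : 0 < Real.log T := by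
    apply Real.log_pos
    exact_mod_cast (by omega : 1 < T)
  have hx0 : (0 : ℝ) < x := lt_of_lt_of_le (Real.rpow_pos_of_pos hlog _) hx1
  have hx1' : 1 ≤ x := by exact_mod_cast hx0
  have hE : ∀ (a : Fin (k + 1) → ℕ) (σ : ℝ), (∀ i, T < a i ∧ a i < 3 ^ (k + 1) * T) → 0 < σ → 0 ≤ expected σ a x := by
    intro a σ ha hσ
    unfold expected
    apply mul_nonneg hσ.le
    apply div_nonneg hx0.le
    apply mul_nonneg (Real.log_natCast_nonneg _)
    apply prod_nonneg
    intro i _
    have : ((a i : ℝ) * x) = ((a i * x : ℕ) : ℝ) := by push_cast; ring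
    rw [this]
    exact Real.log_natCast_nonneg _
  rcases hθ with hθ | hθ
  · obtain ⟨S, hS1, hS2⟩ := g₁ x hx1 hx2
    refine ⟨S, hS1, fun a ha => ?_⟩
    obtain ⟨b1, b2, b3, σ, b4, b5, b6⟩ := hS2 a ha
    refine ⟨b1, b2, hadm a b3, σ, b4, b5, ?_⟩
    have e1 : (-1 : ℝ) ^ (2 * n₀) = 1 := by rw [pow_mul]; norm_num
    rw [e1, hcnt] at b6
    rw [hθ]
    refine le_trans ?_ b6
    exact mul_le_mul_of_nonneg_right (min_le_left _ _) (hE a σ b2 b4)
  · obtain ⟨S, hS1, hS2⟩ := g₂ x hx1 hx2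
    refine ⟨S, hS1, fun a ha => ?_⟩
    obtain ⟨b1, b2, b3, σ, b4, b5, b6⟩ := hS2 a ha
    refine ⟨b1, b2, hadm a b3, σ, b4, b5, ?_⟩
    have e1 : (-1 : ℝ) ^ (2 * n₀ + 1) = -1 := by rw [pow_succ, pow_mul]; norm_num
    rw [e1, hcnt] at b6
    rw [hθ]
    refine le_trans ?_ b6
    exact mul_le_mul_of_nonneg_right (min_le_right _ _) (hE a σ b2 b4)

end Pool.Agent.Results.MP_bca3e5_nt.NonuniformMultipliers
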