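import Mathlib
import Pool.Agent.H536.OC.U5
import Pool.Agent.H536.OC.SMultB

/-!
# `n` and `a_i n + 1`: one prime, another one a `P₃` and the others almost prime, uniformly in the multipliers

For every `s` and `K` there are `δ > 0` and `R` such that for every large `X`, all distinct `1 ≤ a_1, ..., a_s ≤ X ^ K`,
every modulus `q ≤ X ^ δ` and every class `r` modulo `q` without a local obstruction, and any two of the `s + 1` forms `n`,
`a_1 n + 1`, ..., `a_s n + 1` whose coefficients are at most `X ^ δ`: there are at least `X ^ 0.97` integers `n ≤ X`,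
`n ≡ r (mod q)`, for which the first of the two forms is a prime, the second one has at most three prime factors (all of
them `> X ^ 0.11`) and all the forms have at most `R` prime factors. There are no exceptional multipliers or moduli.
-/

namespace Pool.Agent.Results.MP_bca3e5_nt.PrimeAndP3UniformMultipliers

/-- the coefficients of the forms `n` (index `none`), `a_i n + 1` -/
def coeff {s : ℕ} (a : Fin s → ℕ) : Option (Fin s) → ℕ
  | none => 1
  | some i => a i

/-- the forms `n` (index `none`), `a_i n + 1` -/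
def form {s : ℕ} (a : Fin s → ℕ) (n : ℕ) : Option (Fin s) → ℕ
  | none => n
  | some i => a i * n + 1

theorem result (s K : ℕ) : ∃ (δ : ℝ) (R X0 : ℕ), 0 < δ ∧ ∀ X : ℕ, X0 ≤ X → ∀ a : Fin s → ℕ,
    Function.Injective a → (∀ i, 1 ≤ a i ∧ a i ≤ X ^ K) → ∀ q r : ℕ, 1 ≤ q → (q : ℝ) ≤ (X : ℝ) ^ δ →
    (∀ p : ℕ, p.Prime → ∃ n : ℕ, (p ∣ q → n ≡ r [MOD p]) ∧ ∀ i, ¬ p ∣ form a n i) → ∀ j l : Option (Fin s), j ≠ l →
    (coeff a j : ℝ) ≤ (X : ℝ) ^ δ → (coeff a l : ℝ) ≤ (X : ℝ) ^ δ →
    ∃ S : Finset ℕ, (X : ℝ) ^ (97 / 100 : ℝ) ≤ S.card ∧ ∀ n ∈ S, n ≤ X ∧ n ≡ r [MOD q] ∧ (form a n j).Prime ∧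
      1 < form a n l ∧ ArithmeticFunction.cardFactors (form a n l) ≤ 3 ∧
      (∀ p : ℕ, p.Prime → p ∣ form a n l → (X : ℝ) ^ (11 / 100 : ℝ) < p) ∧
      ∀ i, ArithmeticFunction.cardFactors (form a n i) ≤ R := by
  have e1 : ∀ (s : ℕ) (a : Fin s → ℕ) (n : ℕ) (i : Option (Fin s)), form a n i = Pool.Agent.H536.OC.fm a n i := by
    intro s a n i
    cases i <;> rfl
  have e2 : ∀ (s : ℕ) (a : Fin s → ℕ) (i : Option (Fin s)), coeff a i = Pool.Agent.H536.OC.cfm a i := by
    intro s a i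
    cases i <;> rfl
  simp only [e1, e2]
  exact Pool.Agent.H536.OC.multB Pool.Agent.H536.OC.U5 s K

end Pool.Agent.Results.MP_bca3e5_nt.PrimeAndP3UniformMultipliers
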