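import Pool.Agent.H561.E3.K11

/-!
# Linear forms along the primes: products of two primes for almost all vectors of shifts in very short boxes

Let `a_1, …, a_s` be nonzero integers, `s ≥ 1`. For every `ε > 0` there is `θ > 0` such that for all `A`, `B` there are `u` and `G`
with the following property for all large `x`. Let `1 ≤ P ≤ x ^ θ`, let `S_1, …, S_s` be arbitrary sets of primes in
`((log x) ^ u, P]` with `∑_{p ∈ S_i} 1 / p ≥ (log x) ^ (-B)`, let `(N₁, N₂] ⊆ [0, x]` be an interval of length at least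
`x / (log x) ^ B`, and let `[r_1, r_1 + H) × … × [r_s, r_s + H)` be ANY box of side `H ≥ P (log x) ^ G` (so `H` may be as small as a
power of `log x`) such that the values `a_i n + b_i` are in `[1, x]` for `n ∈ (N₁, N₂]` and `b` in the box. For all `b` in the box,
except at most `H ^ s / (log x) ^ A`, for which the forms `n, a_1 n + b_1, …, a_s n + b_s` are pairwise not proportional and
admissible (no prime divides `n ∏_i (a_i n + b_i)` for all `n`): the number of the primes `n ∈ (N₁, N₂]` such that every `a_i n + b_i`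
is the product of a prime from `S_i` and a prime is

`∏_p (1 - 1 / p) ^ (-(s + 1)) (1 - ω(p) / p) * ∏_i (∑_{p ∈ S_i} 1 / p) * (N₂ - N₁) / (log x) ^ (s + 1)`

up to a relative error of at most `ε`.

Proof: `Pool.Agent.H561.E2`, `Pool.Agent.H561.E3` (circle method in short intervals with arbitrary weights).
-/

set_option autoImplicit false

namespace Pool.Agent.Results.MP_bca3e5_nt.TwoPrimesAlmostAllShifts

open Finset Filter

/-- `m` is the product of an element of `S` and a prime -/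
def ProductOfTwo (S : Finset ℕ) (m : ℤ) : Prop := ∃ p ∈ S, ∃ q : ℕ, q.Prime ∧ m = p * q

open Classical in
/-- the number of the primes `n`, `N₁ < n ≤ N₂`, such that every `a_i n + b_i` is the product of an element of `S_i` and a
prime -/
noncomputable def count {s : ℕ} (a b : Fin s → ℤ) (S : Fin s → Finset ℕ) (N₁ N₂ : ℕ) : ℕ :=
  ((Ioc N₁ N₂).filter (fun n : ℕ => n.Prime ∧ ∀ i, ProductOfTwo (S i) (a i * n + b i))).card

open Classical in
/-- the number of the solutions `n` modulo `p` of `n ∏_i (a_i n + b_i) ≡ 0` -/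
noncomputable def ω {s : ℕ} (a b : Fin s → ℤ) (p : ℕ) : ℕ :=
  ((range p).filter (fun n : ℕ => (p : ℤ) ∣ (n : ℤ) * ∏ i, (a i * (n : ℤ) + b i))).card

/-- the singular series -/
noncomputable def singularSeries {s : ℕ} (a b : Fin s → ℤ) : ℝ :=
  ∏' p : Nat.Primes, (1 - 1 / ((p : ℕ) : ℝ))⁻¹ ^ (s + 1) * (1 - (ω a b p : ℝ) / ((p : ℕ) : ℝ))

/-- the expected number -/
noncomputable def expected {s : ℕ} (a b : Fin s → ℤ) (S : Fin s → Finset ℕ) (x N₁ N₂ : ℕ) : ℝ :=
  singularSeries a b * (∏ i, ∑ p ∈ S i, 1 / (p : ℝ)) * ((N₂ : ℝ) - N₁) / Real.log x ^ (s + 1)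

/-- the forms `n, a_1 n + b_1, …, a_s n + b_s` are pairwise not proportional, and no prime divides `n ∏_i (a_i n + b_i)` for all
`n` -/
def Admissible {s : ℕ} (a b : Fin s → ℤ) : Prop :=
  (∀ i, b i ≠ 0) ∧ (∀ i j, i ≠ j → a j * b i ≠ a i * b j) ∧
    ∀ p : ℕ, p.Prime → ∃ n : ℕ, ¬ (p : ℤ) ∣ (n : ℤ) * ∏ i, (a i * (n : ℤ) + b i)

open Classical in
/-- the admissible vectors `b` of the box `[r_1, r_1 + H) × … × [r_s, r_s + H)` for which the formula does not hold up to a
relative error of at most `ε` -/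
noncomputable def exceptional {s : ℕ} (ε : ℝ) (a : Fin s → ℤ) (S : Fin s → Finset ℕ) (x N₁ N₂ H : ℕ) (r : Fin s → ℤ) :
    Finset (Fin s → ℤ) :=
  (Fintype.piFinset (fun i => Ico (r i) (r i + H))).filter
    (fun b => Admissible a b ∧ ¬ |(count a b S N₁ N₂ : ℝ) - expected a b S x N₁ N₂| ≤ ε * expected a b S x N₁ N₂)

lemma prod_iff (S : Finset ℕ) (hS : ∀ p ∈ S, p.Prime) (m : ℤ) : ProductOfTwo S m ↔ Pool.Agent.H561.E2.PS S m.toNat := by
  constructor
  · rintro ⟨p, hp, q, hq, hm⟩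
    refine ⟨p, hp, q, hq, ?_⟩
    rw [hm]
    exact_mod_cast Int.toNat_natCast (p * q)
  · rintro ⟨p, hp, q, hq, hm⟩
    refine ⟨p, hp, q, hq, ?_⟩
    have h1 : 0 < p * q := Nat.mul_pos (hS p hp).pos hq.pos
    have h2 : ((m.toNat : ℕ) : ℤ) = m := Int.toNat_of_nonneg (by omega)
    rw [← h2, hm]
    push_cast
    rfl

lemma ω_eq {s : ℕ} (a b : Fin s → ℤ) (p : ℕ) : ω a b p = Pool.Agent.H561.E2.omg a b p := rfl

lemma ω_lt {s : ℕ} (a b : Fin s → ℤ) (p : ℕ) (hp : p.Prime) (h : ∃ n : ℕ, ¬ (p : ℤ) ∣ (n : ℤ) * ∏ i, (a i * (n : ℤ) + b i)) :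
    ω a b p < p := by
  classical
  obtain ⟨n, hn⟩ := h
  have h1 : ¬ (p : ℤ) ∣ ((n % p : ℕ) : ℤ) * ∏ i, (a i * ((n % p : ℕ) : ℤ) + b i) := by
    intro h2
    apply hn
    have h3 : (n : ℤ) ≡ ((n % p : ℕ) : ℤ) [ZMOD p] := by
      rw [Int.natCast_mod]
      exact (Int.mod_modEq _ _).symm
    have h4 : (n : ℤ) * ∏ i, (a i * (n : ℤ) + b i) ≡ ((n % p : ℕ) : ℤ) * ∏ i, (a i * ((n % p : ℕ) : ℤ) + b i) [ZMOD p] := by
      apply Int.ModEq.mul h3
      have h5 : ∀ T : Finset (Fin s), ∏ i ∈ T, (a i * (n : ℤ) + b i) ≡ ∏ i ∈ T, (a i * ((n % p : ℕ) : ℤ) + b i) [ZMOD p] := by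
        intro T
        induction T using Finset.induction_on with
        | empty => simp
        | insert x T hx ih =>
          rw [prod_insert hx, prod_insert hx]
          exact Int.ModEq.mul ((h3.mul_left _).add_right _) ih
      exact h5 univ
    exact (Int.ModEq.dvd_iff h4).2 h2
  have h2 : (range p).filter (fun n : ℕ => (p : ℤ) ∣ (n : ℤ) * ∏ i, (a i * (n : ℤ) + b i)) ⊂ range p := by
    rw [Finset.ssubset_iff_of_subset (filter_subset _ _)]
    refine ⟨n % p, mem_range.2 (Nat.mod_lt _ hp.pos), fun h3 => ?_⟩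
    rw [mem_filter] at h3
    exact h1 h3.2
  have h3 := card_lt_card h2
  rw [card_range] at h3
  exact h3

/-- **Products of two primes at linear forms along the primes, for almost all vectors of shifts of every box of side
`H ≥ P (log x) ^ G`.** -/
theorem result (s : ℕ) (hs : 0 < s) (a : Fin s → ℤ) (ha : ∀ i, a i ≠ 0) (ε : ℝ) (hε : 0 < ε) :
    ∃ θ : ℝ, 0 < θ ∧ ∀ A B : ℕ, ∃ u G : ℕ, ∀ᶠ x : ℕ in atTop, ∀ (P : ℕ) (S : Fin s → Finset ℕ) (N₁ N₂ H : ℕ) (r : Fin s → ℤ),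
      1 ≤ P → (P : ℝ) ≤ (x : ℝ) ^ θ →
      (∀ i, ∀ p ∈ S i, p.Prime ∧ Real.log x ^ u < p ∧ p ≤ P) →
      (∀ i, 1 / Real.log x ^ B ≤ ∑ p ∈ S i, 1 / (p : ℝ)) →
      N₂ ≤ x → x / Real.log x ^ B ≤ (N₂ : ℝ) - N₁ → P * Real.log x ^ G ≤ H →
      (∀ i, ∀ n ∈ Ioc N₁ N₂, 1 ≤ a i * (n : ℤ) + r i ∧ a i * (n : ℤ) + r i + H ≤ x) →
        ((exceptional ε a S x N₁ N₂ H r).card : ℝ) ≤ (H : ℝ) ^ s / Real.log x ^ A := by
  classical
  obtain ⟨θ, hθ0, _, hT⟩ := Pool.Agent.H561.E3.cntPK s hs a ha (fun U => Pool.Agent.H561.E3.err_bigK hs a ha U) ε hε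
  refine ⟨θ, hθ0, fun A B => ?_⟩
  obtain ⟨a₀, hT⟩ := hT A B
  obtain ⟨G, X₀, hT⟩ := hT a₀ le_rfl
  refine ⟨a₀, G, ?_⟩
  refine Filter.eventually_atTop.2 ⟨max X₀ 3, fun x hx P S N₁ N₂ H r hP hPθ hS hSB hN2 hNN hH hb => ?_⟩
  have hx3 : 3 ≤ x := (le_max_right _ _).trans hx
  have hL : 0 < Real.log x := Real.log_pos (by exact_mod_cast (by omega : 1 < x))
  have hN12 : N₁ < N₂ := by
    have h1 : (0 : ℝ) < x / Real.log x ^ B := by
      have : (0 : ℝ) < x := by exact_mod_cast (by omega : 0 < x)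
      positivity
    have h2 : (N₁ : ℝ) < N₂ := by linarith
    exact_mod_cast h2
  have h0 := hT x ((le_max_left _ _).trans hx) P hP hPθ S hS hSB H hH N₁ N₂ r hN12 hN2 hNN hb
  refine le_trans ?_ h0
  have hsub : exceptional ε a S x N₁ N₂ H r ⊆ (Fintype.piFinset (fun i : Fin s => Ico (r i) (r i + H))).filter (fun h =>
      Pool.Agent.H561.E2.NDeg a h ∧ Pool.Agent.H561.E2.Adm a h ∧
      ¬ (Multipliable (fun p : ℕ => if p.Prime then Pool.Agent.H561.E2.lf a h p else 1) ∧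
      |(Pool.Agent.H561.E2.cntE a S N₁ N₂ h : ℝ) - Pool.Agent.H561.E2.Mn a S N₁ N₂ h / Real.log x ^ (s + 1)| ≤
      ε * (Pool.Agent.H561.E2.Mn a S N₁ N₂ h / Real.log x ^ (s + 1)))) := by
    intro b hh
    unfold exceptional at hh
    rw [mem_filter] at hh
    rw [mem_filter]
    obtain ⟨h1, ⟨h2, h3, h4⟩, h5⟩ := hh
    refine ⟨h1, ⟨h2, ?_⟩, ?_, fun h6 => h5 ?_⟩
    · intro i j hij h6
      unfold Pool.Agent.H561.E2.DD at h6
      exact h3 i j hij (by linarith)
    · rw [Pool.Agent.H561.E2.adm_iff]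
      intro p hp
      rw [← ω_eq]
      exact ω_lt a b p hp (h4 p hp)
    · have e1 : count a b S N₁ N₂ = Pool.Agent.H561.E2.cntE a S N₁ N₂ b := by
        unfold count Pool.Agent.H561.E2.cntE
        congr 1
        apply filter_congr
        intro n _
        apply and_congr_right
        intro _
        apply forall_congr'
        intro i
        unfold Pool.Agent.H561.E2.LFo
        exact prod_iff (S i) (fun p hp => (hS i p hp).1) _
      have e2 : expected a b S x N₁ N₂ = Pool.Agent.H561.E2.Mn a S N₁ N₂ b / Real.log x ^ (s + 1) := by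
        unfold expected Pool.Agent.H561.E2.Mn
        have : singularSeries a b = Pool.Agent.H561.E2.singT a b := by
          rw [← Pool.Agent.H561.E2.singD_eq]
          rfl
        rw [this]
      rw [e1, e2]
      exact h6.2
  exact_mod_cast card_le_card hsub

end Pool.Agent.Results.MP_bca3e5_nt.TwoPrimesAlmostAllShifts
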